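import Pool.Agent.Lib.MP_f35bed_an.Final

/-!
Continuous maps from the sphere of dimension `m` to a compact manifold whose weak derivative of
order `m` has integral at most `lam` belong to finitely many homotopy classes.
-/

open scoped Manifold ContDiff

namespace Pool.Agent.Results.MP_f35bed_an.FiniteClasses

open Pool.Agent.Lib.MP_f35bed_an

universe u

theorem result {n ν m : ℕ} (hm : 1 ≤ m) {N : Type u} [TopologicalSpace N]
    [ChartedSpace (EuclideanSpace ℝ (Fin n)) N] [IsManifold (𝓡 n) ∞ N] [CompactSpace N]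
    (ι : N → EuclideanSpace ℝ (Fin ν)) (hι : IsInjImmersion (EuclideanSpace ℝ (Fin n)) ι)
    (lam : ℝ) :
    FinitelyManyClasses fun f : Sph m → N => EnergyLe (fun x => ι (f x)) lam := by
  obtain ⟨ε, hε, h⟩ := homotopic_of_close hι.1 hι.2.1 hι.2.2
  obtain ⟨S, hS, h1⟩ := finite_classes hm hι.1.continuous hε (h _) lam
  exact ⟨S, hS, fun f ⟨T, hT, hl⟩ => h1 f T hT hl⟩

end Pool.Agent.Results.MP_f35bed_an.FiniteClasses
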